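import Pool.Agent.N446.IG.Tab8

set_option autoImplicit false
set_option maxRecDepth 100000

namespace Pool.Agent.N446.IG

theorem chk8_4 : tab8_4.all (chkRow 8 4 tab8) = true := by decide +kernel

end Pool.Agent.N446.IG
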