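import Mathlib

/-!
Edge colourings of indifference graphs from left to right.

The vertices are `0, ..., n-1`; the vertex `j` is adjacent to `i < j` iff `a j ≤ i`, where `a` is
monotone. A row of the table describes the last vertices of a prefix which may get more
neighbours, together with a list of patterns of used colours, each of which occurs in a proper edge
colouring of every prefix with this description.
-/

set_option autoImplicit false

namespace Pool.Agent.N446.IG

/-- the number of pairs of non-adjacent vertices in the interval `[a x, t]` -/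
def miss (a : ℕ → ℕ) (x t : ℕ) : ℕ := ∑ j ∈ Finset.Ioc x t, (a j - a x)

/-- adjacency in the prefix of the first `t` vertices -/
def Nb (a : ℕ → ℕ) (t x y : ℕ) : Prop :=
  x < t ∧ y < t ∧ ((x < y ∧ a y ≤ x) ∨ (y < x ∧ a x ≤ y))

theorem Nb.symm {a : ℕ → ℕ} {t x y : ℕ} (h : Nb a t x y) : Nb a t y x :=
  ⟨h.2.1, h.1, h.2.2.symm⟩

theorem Nb.ne {a : ℕ → ℕ} {t x y : ℕ} (h : Nb a t x y) : x ≠ y := by
  rcases h.2.2 with h | h <;> omega

/-- proper edge colourings of the prefix -/
structure Good (D : ℕ) (a : ℕ → ℕ) (t : ℕ) (φ : ℕ → ℕ → ℕ) : Prop where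
  lt : ∀ x y, Nb a t x y → φ x y < D
  symm : ∀ x y, Nb a t x y → φ x y = φ y x
  inj : ∀ x y z, Nb a t x y → Nb a t x z → y ≠ z → φ x y ≠ φ x z

/-- the mask of the colour `c` in a pattern -/
def msk (u c : ℕ) : ℕ := u / 256 ^ c % 256

/-- one row of the table: profile, patterns, transitions -/
abbrev Row : Type := List (ℕ × ℕ) × List ℕ × List (ℕ × ℕ × List ℕ)

/-- the profile after a new vertex with `k` neighbours, before the saturated ones are removed -/
def nxt (m : ℕ) (p : List (ℕ × ℕ)) (k : ℕ) : List (ℕ × ℕ) :=
  ((p.drop (p.length - k)).map fun e => (e.1 + 1, min m (e.2 + (e.1 + 1 - k)))) ++ [(k, 0)]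

/-- digits of a certificate -/
def dg (q c : ℕ) : ℕ := q / 65536 ^ c % 65536

def J (q c : ℕ) : ℕ := dg q c % 16
def I (q c : ℕ) : ℕ := dg q c / 16 % 16
def E (q c : ℕ) : ℕ := dg q c / 256 % 16
def K (q c : ℕ) : ℕ := dg q c / 4096

def bits (k e : ℕ) : ℕ := if e = 0 then 0 else 2 ^ (e - 1) ||| 2 ^ k

/-- check of one certificate: `l` active vertices, `k` kept, `c0` removed, source `s`, target `u` -/
def chk (D l k c0 s u q : ℕ) : Bool :=
  (List.range D).all (fun c =>
    decide (J q c < D) && decide (I q c < D) && decide (J q (I q c) = c) &&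
    decide (I q (J q c) = c) &&
    (decide (E q c = 0) || (decide (E q c ≤ k) && decide (K q (E q c - 1) = c) &&
      !((msk s (J q c)).testBit (l - k + (E q c - 1))))) &&
    decide (msk u c = (((msk s (J q c)) % 2 ^ l) >>> (l - k) ||| bits k (E q c)) >>> c0)) &&
  (List.range k).all (fun i => decide (K q i < D) && decide (E q (K q i) = i + 1))

/-- check of all certificates of a transition -/
def chks (D l k c0 : ℕ) (F : List ℕ) : List ℕ → List ℕ → Bool
  | [], _ => true
  | _ :: _, [] => false
  | u :: us, q :: qs =>
    decide (q / 65536 ^ D < F.length) &&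
    chk D l k c0 (F.getD (q / 65536 ^ D) 0) u q && chks D l k c0 F us qs

def skip (D m : ℕ) (p : List (ℕ × ℕ)) : Bool :=
  p.any fun e => decide (D < e.1) || (decide (e.1 = D) && decide (e.2 < m))

/-- check of one transition -/
def chkT (D m : ℕ) (tab : List Row) (r : Row) (k : ℕ) : Bool :=
  skip D m (nxt m r.1 k) ||
  (match r.2.2[k - 1]? with
   | none => false
   | some (i, c0, qs) =>
     match tab[i]? with
     | none => false
     | some r' =>
       decide (c0 ≤ k) && decide ((nxt m r.1 k).drop c0 = r'.1) &&
       (((nxt m r.1 k).take c0).all fun e => decide (e.1 = D)) &&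
       chks D r.1.length k c0 r.2.1 r'.2.1 qs)

def chkRow (D m : ℕ) (tab : List Row) (r : Row) : Bool :=
  !r.2.1.isEmpty && (List.range' 1 r.1.length).all (chkT D m tab r)

def chkTab (D m : ℕ) (tab : List Row) : Bool :=
  decide (tab[0]? = some ([], [0], [])) &&
  (match tab[1]? with
   | none => false
   | some r => decide (r.1 = [(0, 0)]) && decide (r.2.1 = [0])) &&
  tab.all (chkRow D m tab)

/-- a colouring of the prefix shows the pattern `u` on the last `l` vertices -/
def Shows (D : ℕ) (a : ℕ → ℕ) (t l u : ℕ) (φ : ℕ → ℕ → ℕ) : Prop :=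
  ∀ c < D, ∀ i < l, ∀ x, x + l = t + i →
    ((msk u c).testBit i = true ↔ ∃ y, Nb a t x y ∧ φ x y = c)

/-- the invariant -/
structure Inv (D m n : ℕ) (a : ℕ → ℕ) (t : ℕ) (r : Row) : Prop where
  le : r.1.length ≤ t
  prof : ∀ i < r.1.length, ∀ x, x + r.1.length = t + i →
    r.1[i]? = some (t - 1 - a x, min m (miss a x (t - 1)))
  closed : t < n → t ≤ a t + r.1.length
  col : ∀ u ∈ r.2.1, ∃ φ, Good D a t φ ∧ Shows D a t r.1.length u φ

section step

variable {D m n : ℕ} {a : ℕ → ℕ}

theorem msk_testBit_lt {u c i : ℕ} (h : (msk u c).testBit i = true) : i < 8 := by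
  by_contra hi
  have : msk u c < 2 ^ i :=
    lt_of_lt_of_le (Nat.mod_lt _ (by norm_num)) (by
      calc (256:ℕ) = 2 ^ 8 := by norm_num
        _ ≤ 2 ^ i := Nat.pow_le_pow_right (by norm_num) (by omega))
  rw [Nat.testBit_lt_two_pow this] at h
  exact absurd h (by simp)

theorem miss_succ {x t : ℕ} (hx : x < t) : miss a x t = miss a x (t - 1) + (a t - a x) := by
  unfold miss
  obtain ⟨s, rfl⟩ : ∃ s, t = s + 1 := ⟨t - 1, by omega⟩
  rw [Nat.add_sub_cancel, Finset.sum_Ioc_succ_top (by omega)]

theorem miss_self (x : ℕ) : miss a x x = 0 := by simp [miss]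

theorem bits_testBit (k e i : ℕ) (hi : i ≤ k) (he : e ≤ k) :
    (bits k e).testBit i = true ↔ (e ≠ 0 ∧ (e = i + 1 ∨ i = k)) := by
  unfold bits
  split
  · rename_i h
    simp [h]
  · rename_i h
    rw [Nat.testBit_or, Bool.or_eq_true, Nat.testBit_two_pow, Nat.testBit_two_pow]
    simp only [decide_eq_true_eq]
    omega

/-- the hypotheses on the graph -/
structure Hyp (D m n : ℕ) (a : ℕ → ℕ) : Prop where
  le : ∀ t, a t ≤ t
  mono : ∀ s t, s ≤ t → t < n → a s ≤ a t
  deg : ∀ x t, x ≤ t → t < n → a t ≤ x → t - a x ≤ D
  nover : ∀ x t, x ≤ t → t < n → a t ≤ x → t - a x = D → m ≤ miss a x t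

theorem nxt_getElem {t : ℕ} {r : Row} (h : Inv D m n a t r) (hH : Hyp D m n a) (ht : t < n)
    (hk : 1 ≤ t - a t) :
    (nxt m r.1 (t - a t)).length = t - a t + 1 ∧
    ∀ i < t - a t + 1, ∀ x, x + (t - a t + 1) = t + 1 + i →
      (nxt m r.1 (t - a t))[i]? = some (t - a x, min m (miss a x t)) := by
  have hle := hH.le t
  have hcl := h.closed ht
  set k := t - a t with hkdef
  have hkl : k ≤ r.1.length := by omega
  have hlen : ((r.1.drop (r.1.length - k)).map fun e => (e.1 + 1, min m (e.2 + (e.1 + 1 - k)))).length
      = k := by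
    rw [List.length_map, List.length_drop]; omega
  refine ⟨by unfold nxt; rw [List.length_append, hlen]; rfl, ?_⟩
  intro i hi x hx
  unfold nxt
  by_cases hik : i < k
  · rw [List.getElem?_append_left (by rw [hlen]; exact hik), List.getElem?_map,
      List.getElem?_drop]
    have h1 := h.prof (r.1.length - k + i) (by omega) x (by omega)
    rw [h1]
    have hxt : x < t := by omega
    have hax : a x ≤ a t := hH.mono x t (by omega) ht
    have haxx := hH.le x
    simp only [Option.map_some, Option.some.injEq, Prod.mk.injEq]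
    refine ⟨by omega, ?_⟩
    rw [miss_succ hxt]
    have e1 : t - 1 - a x + 1 - k = a t - a x := by omega
    rw [e1]
    omega
  · have hik' : i = k := by omega
    subst hik'
    have hxt : x = t := by omega
    subst hxt
    rw [List.getElem?_append_right (by rw [hlen]), hlen]
    simp [miss_self, hkdef]

theorem not_skip {t : ℕ} {r : Row} (h : Inv D m n a t r) (hH : Hyp D m n a) (ht : t < n)
    (hk : 1 ≤ t - a t) : skip D m (nxt m r.1 (t - a t)) = false := by
  obtain ⟨hlen, hget⟩ := nxt_getElem h hH ht hk
  rw [skip, List.any_eq_false]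
  intro e he
  obtain ⟨i, hi, rfl⟩ := List.getElem_of_mem he
  have hle := hH.le t
  rw [hlen] at hi
  have h1 := hget i hi (t + 1 + i - (t - a t + 1)) (by omega)
  rw [List.getElem?_eq_getElem (by omega)] at h1
  have h2 := Option.some.inj h1
  rw [h2]
  set x := t + 1 + i - (t - a t + 1) with hx
  have h3 := hH.deg x t (by omega) ht (by omega)
  have h4 := hH.nover x t (by omega) ht (by omega)
  simp only [Bool.or_eq_true, decide_eq_true_eq, Bool.and_eq_true, not_or, not_and]
  refine ⟨by omega, ?_⟩
  intro h5
  have := h4 h5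
  omega

/-- the colouring after the step -/
def stepCol (t k q : ℕ) (φ : ℕ → ℕ → ℕ) (x y : ℕ) : ℕ :=
  if x = t then K q (y + k - t) else if y = t then K q (x + k - t) else I q (φ x y)

theorem col_step {t l k c0 s u q : ℕ} {φ : ℕ → ℕ → ℕ} (hg : Good D a t φ)
    (hs : Shows D a t l s φ) (hk : k = t - a t) (hat : a t ≤ t) (hkl : k ≤ l) (hlt : l ≤ t)
    (hc : chk D l k c0 s u q = true) (hc0 : c0 ≤ k) :
    ∃ φ', Good D a (t + 1) φ' ∧ Shows D a (t + 1) (k + 1 - c0) u φ' := by
  rw [chk, Bool.and_eq_true, List.all_eq_true, List.all_eq_true] at hc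
  obtain ⟨hA, hB⟩ := hc
  have hA' : ∀ c < D, J q c < D ∧ I q c < D ∧ J q (I q c) = c ∧ I q (J q c) = c ∧
      (E q c = 0 ∨ (E q c ≤ k ∧ K q (E q c - 1) = c ∧
        (msk s (J q c)).testBit (l - k + (E q c - 1)) = false)) ∧
      msk u c = (((msk s (J q c)) % 2 ^ l) >>> (l - k) ||| bits k (E q c)) >>> c0 := by
    intro c hc
    have := hA c (List.mem_range.2 hc)
    simp only [Bool.and_eq_true, Bool.or_eq_true, decide_eq_true_eq, Bool.not_eq_true'] at this
    obtain ⟨⟨⟨⟨⟨h1, h2⟩, h3⟩, h4⟩, h5⟩, h6⟩ := this
    refine ⟨h1, h2, h3, h4, ?_, h6⟩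
    rcases h5 with h5 | ⟨⟨h5, h7⟩, h8⟩
    · exact Or.inl h5
    · exact Or.inr ⟨h5, h7, h8⟩
  have hB' : ∀ i < k, K q i < D ∧ E q (K q i) = i + 1 := by
    intro i hi
    have := hB i (List.mem_range.2 hi)
    simpa using this
  clear hA hB
  have hEle : ∀ c < D, E q c ≤ k := by
    intro c hc
    rcases (hA' c hc).2.2.2.2.1 with h | h
    · omega
    · exact h.1
  have hEK : ∀ c < D, E q c ≠ 0 → K q (E q c - 1) = c := by
    intro c hc h0
    rcases (hA' c hc).2.2.2.2.1 with h | h
    · exact absurd h h0
    · exact h.2.1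
  -- neighbours in the new prefix
  have nbOld : ∀ x y, x < t → y < t → (Nb a (t + 1) x y ↔ Nb a t x y) := by
    intro x y hx hy
    unfold Nb
    constructor
    · rintro ⟨_, _, h⟩; exact ⟨hx, hy, h⟩
    · rintro ⟨_, _, h⟩; exact ⟨by omega, by omega, h⟩
  have nbNew : ∀ y, Nb a (t + 1) t y ↔ (a t ≤ y ∧ y < t) := by
    intro y
    unfold Nb
    constructor
    · rintro ⟨_, h1, h | h⟩
      · omega
      · omega
    · rintro ⟨h1, h2⟩
      exact ⟨by omega, by omega, Or.inr ⟨h2, h1⟩⟩
  have key : ∀ x y, Nb a (t + 1) x t → Nb a t x y → K q (x + k - t) ≠ I q (φ x y) := by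
    intro x y hxt hxy heq
    have h1 := (nbNew x).1 hxt.symm
    have hi : x + k - t < k := by omega
    obtain ⟨h2, h3⟩ := hB' _ hi
    have hφ := hg.lt x y hxy
    have h4 := (hA' _ hφ).2.2.1
    have h5 := hA' _ h2
    rcases h5.2.2.2.2.1 with h6 | ⟨_, _, h6⟩
    · omega
    · rw [h3] at h6
      have h7 : J q (K q (x + k - t)) = φ x y := by rw [heq, h4]
      rw [h7] at h6
      have h8 := (hs (φ x y) hφ (l - k + (x + k - t + 1 - 1)) (by omega) x (by omega)).2
        ⟨y, hxy, rfl⟩
      rw [h6] at h8
      exact absurd h8 (by simp)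
  refine ⟨stepCol t k q φ, ⟨?_, ?_, ?_⟩, ?_⟩
  · intro x y hxy
    unfold stepCol
    by_cases hx : x = t
    · subst hx
      have := (nbNew y).1 hxy
      rw [if_pos rfl]
      exact (hB' _ (by omega)).1
    · by_cases hy : y = t
      · subst hy
        have := (nbNew x).1 hxy.symm
        rw [if_neg hx, if_pos rfl]
        exact (hB' _ (by omega)).1
      · rw [if_neg hx, if_neg hy]
        have hx' : x < t := by have := hxy.1; omega
        have hy' : y < t := by have := hxy.2.1; omega
        exact (hA' _ (hg.lt x y ((nbOld x y hx' hy').1 hxy))).2.1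
  · intro x y hxy
    unfold stepCol
    by_cases hx : x = t
    · subst hx
      have hy : y ≠ x := fun h => hxy.ne h.symm
      rw [if_pos rfl, if_neg hy, if_pos rfl]
    · by_cases hy : y = t
      · subst hy
        rw [if_neg hx, if_pos rfl, if_pos rfl]
      · rw [if_neg hx, if_neg hy, if_neg hy, if_neg hx]
        have hx' : x < t := by have := hxy.1; omega
        have hy' : y < t := by have := hxy.2.1; omega
        rw [hg.symm x y ((nbOld x y hx' hy').1 hxy)]
  · intro x y z hxy hxz hyz
    unfold stepCol
    by_cases hx : x = t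
    · subst hx
      rw [if_pos rfl, if_pos rfl]
      intro heq
      have h1 := (nbNew y).1 hxy
      have h2 := (nbNew z).1 hxz
      have h3 := (hB' (y + k - x) (by omega)).2
      have h4 := (hB' (z + k - x) (by omega)).2
      rw [heq, h4] at h3
      omega
    · have hx' : x < t := by have := hxy.1; omega
      rw [if_neg hx, if_neg hx]
      by_cases hy : y = t
      · subst hy
        have hz : z ≠ y := fun h => hyz h.symm
        have hz' : z < y := by have := hxz.2.1; omega
        rw [if_pos rfl, if_neg hz]
        exact key x z hxy ((nbOld x z hx' hz').1 hxz)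
      · have hy' : y < t := by have := hxy.2.1; omega
        by_cases hz : z = t
        · subst hz
          rw [if_neg hy, if_pos rfl]
          exact (key x y hxz ((nbOld x y hx' hy').1 hxy)).symm
        · have hz' : z < t := by have := hxz.2.1; omega
          rw [if_neg hy, if_neg hz]
          intro heq
          have hy1 := (nbOld x y hx' hy').1 hxy
          have hz1 := (nbOld x z hx' hz').1 hxz
          have h1 := (hA' _ (hg.lt x y hy1)).2.2.1
          have h2 := (hA' _ (hg.lt x z hz1)).2.2.1
          rw [heq, h2] at h1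
          exact hg.inj x y z hy1 hz1 hyz h1.symm
  · intro c hc i' hi' x hx
    obtain ⟨hJ, hI, hJI, hIJ, hEc, hu⟩ := hA' c hc
    rw [hu, Nat.testBit_shiftRight, Nat.testBit_or, Bool.or_eq_true, Nat.testBit_shiftRight,
      Nat.testBit_mod_two_pow, Bool.and_eq_true, decide_eq_true_eq,
      bits_testBit k (E q c) (c0 + i') (by omega) (hEle c hc)]
    by_cases hxt : x = t
    · subst hxt
      have hik : c0 + i' = k := by omega
      constructor
      · rintro (⟨h1, _⟩ | ⟨h1, h2⟩)
        · omega
        · have h3 := hEle c hc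
          refine ⟨x - k + (E q c - 1), (nbNew _).2 (by omega), ?_⟩
          unfold stepCol
          rw [if_pos rfl]
          have e1 : x - k + (E q c - 1) + k - x = E q c - 1 := by omega
          rw [e1]
          exact hEK c hc h1
      · rintro ⟨y, hy, hyc⟩
        right
        have h1 := (nbNew y).1 hy
        unfold stepCol at hyc
        rw [if_pos rfl] at hyc
        have h2 := (hB' (y + k - x) (by omega)).2
        rw [hyc] at h2
        omega
    · have hx' : x < t := by omega
      have hi : x + k - t = c0 + i' := by omega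
      constructor
      · rintro (⟨h1, h2⟩ | ⟨h1, h2⟩)
        · obtain ⟨y, hy, hyc⟩ := (hs (J q c) hJ (l - k + (c0 + i')) h1 x (by omega)).1 h2
          refine ⟨y, (nbOld x y hx' hy.2.1).2 hy, ?_⟩
          unfold stepCol
          have hyt : y ≠ t := by have := hy.2.1; omega
          rw [if_neg hxt, if_neg hyt, hyc, hIJ]
        · have h3 : E q c = c0 + i' + 1 := by omega
          refine ⟨t, (Nb.symm ((nbNew x).2 (by omega))), ?_⟩
          unfold stepCol
          rw [if_neg hxt, if_pos rfl, hi]
          have := hEK c hc h1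
          rwa [h3, Nat.add_sub_cancel] at this
      · rintro ⟨y, hy, hyc⟩
        unfold stepCol at hyc
        rw [if_neg hxt] at hyc
        by_cases hyt : y = t
        · subst hyt
          rw [if_pos rfl] at hyc
          right
          have h2 := (hB' (x + k - y) (by omega)).2
          rw [hyc] at h2
          omega
        · have hy' : y < t := by have := hy.2.1; omega
          rw [if_neg hyt] at hyc
          left
          have hy1 := (nbOld x y hx' hy').1 hy
          have h3 := (hA' _ (hg.lt x y hy1)).2.2.1
          rw [hyc] at h3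
          refine ⟨by omega, ?_⟩
          exact (hs (J q c) hJ (l - k + (c0 + i')) (by omega) x (by omega)).2
            ⟨y, hy1, h3.symm⟩

theorem chks_get {l k c0 : ℕ} {F : List ℕ} : ∀ {us qs : List ℕ},
    chks D l k c0 F us qs = true → ∀ u ∈ us, ∃ s ∈ F, ∃ q, chk D l k c0 s u q = true
  | [], _, _, u, hu => absurd hu (by simp)
  | _ :: _, [], h, _, _ => absurd h (by simp [chks])
  | v :: us, q :: qs, h, u, hu => by
    rw [chks, Bool.and_eq_true, Bool.and_eq_true, decide_eq_true_eq] at h
    obtain ⟨⟨h1, h2⟩, h3⟩ := h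
    rcases List.mem_cons.1 hu with rfl | hu
    · refine ⟨_, ?_, q, h2⟩
      rw [List.getD_eq_getElem _ _ h1]
      exact List.getElem_mem h1
    · exact chks_get h3 u hu

theorem Inv.step {t : ℕ} {r : Row} {tab : List Row} (htab : chkTab D m tab = true)
    (hr : r ∈ tab) (h : Inv D m n a t r) (hH : Hyp D m n a) (ht : t < n) :
    ∃ r' ∈ tab, Inv D m n a (t + 1) r' := by
  have hat := hH.le t
  rw [chkTab, Bool.and_eq_true, Bool.and_eq_true, List.all_eq_true] at htab
  obtain ⟨⟨_, hstart⟩, hall⟩ := htab
  have hrow := hall r hr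
  rw [chkRow, Bool.and_eq_true, List.all_eq_true] at hrow
  obtain ⟨hne, hk⟩ := hrow
  by_cases hk0 : 1 ≤ t - a t
  · -- at least one neighbour
    have hcl := h.closed ht
    obtain ⟨hlen, hget⟩ := nxt_getElem h hH ht hk0
    have hns := not_skip h hH ht hk0
    have h1 := hk (t - a t) (by rw [List.mem_range'_1]; omega)
    rw [chkT, hns, Bool.false_or] at h1
    split at h1
    · exact absurd h1 (by simp)
    · rename_i i c0 qs hT
      split at h1
      · exact absurd h1 (by simp)
      · rename_i r' hr'
        simp only [Bool.and_eq_true, decide_eq_true_eq] at h1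
        obtain ⟨⟨⟨hc0, hdrop⟩, hsat⟩, hchks⟩ := h1
        have hr'mem : r' ∈ tab := List.mem_of_getElem? hr'
        have hlen' : r'.1.length = t - a t + 1 - c0 := by
          rw [← hdrop, List.length_drop, hlen]
        refine ⟨r', hr'mem, ?_, ?_, ?_, ?_⟩
        · have := h.le
          omega
        · intro i' hi' x hx
          rw [← hdrop, List.getElem?_drop]
          have := hget (c0 + i') (by omega) x (by omega)
          rw [this]
          rfl
        · intro htn
          by_contra hcon
          have hmono := hH.mono t (t + 1) (by omega) htn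
          have hc0pos : 1 ≤ c0 := by omega
          have hx := hget (c0 - 1) (by omega) (t - r'.1.length) (by omega)
          rw [List.getElem?_eq_getElem (by omega)] at hx
          have hx2 := Option.some.inj hx
          rw [List.all_eq_true] at hsat
          have hmem : (nxt m r.1 (t - a t))[c0 - 1]'(by omega) ∈
              (nxt m r.1 (t - a t)).take c0 := by
            rw [List.mem_take_iff_getElem]
            exact ⟨c0 - 1, by omega, rfl⟩
          have h3 := hsat _ hmem
          rw [decide_eq_true_eq, hx2] at h3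
          have h4 := hH.deg (t - r'.1.length) (t + 1) (by omega) htn (by omega)
          simp only at h3
          have h5 := hH.le (t - r'.1.length)
          have h6 := hH.mono (t - r'.1.length) t (by omega) ht
          omega
        · intro u hu
          obtain ⟨s, hs, q, hq⟩ := chks_get hchks u hu
          obtain ⟨φ, hφ, hsh⟩ := h.col s hs
          rw [hlen']
          exact col_step hφ hsh rfl hat (by omega) h.le hq hc0
  · -- no neighbour
    split at hstart
    · exact absurd hstart (by simp)
    · rename_i r1 hr1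
      rw [Bool.and_eq_true, decide_eq_true_eq, decide_eq_true_eq] at hstart
      obtain ⟨hp, hF⟩ := hstart
      have hat' : a t = t := by omega
      obtain ⟨u0, hu0⟩ : ∃ u, u ∈ r.2.1 := by
        cases hF0 : r.2.1 with
        | nil => rw [hF0] at hne; simp at hne
        | cons u us => exact ⟨u, List.mem_cons_self⟩
      obtain ⟨φ, hφ, _⟩ := h.col u0 hu0
      have nbt : ∀ y, ¬ Nb a (t + 1) t y := by
        intro y hy
        rcases hy.2.2 with h1 | h1
        · have := hy.2.1; omega
        · omega
      have nbOld : ∀ x y, Nb a (t + 1) x y → Nb a t x y := by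
        intro x y hxy
        have hx : x ≠ t := fun e => nbt y (e ▸ hxy)
        have hy : y ≠ t := fun e => nbt x (e ▸ hxy.symm)
        exact ⟨by have := hxy.1; omega, by have := hxy.2.1; omega, hxy.2.2⟩
      refine ⟨r1, List.mem_of_getElem? hr1, ?_, ?_, ?_, ?_⟩
      · rw [hp]; simp
      · rw [hp]
        intro i hi x hx
        simp only [List.length_cons, List.length_nil] at hi hx
        have hi0 : i = 0 := by omega
        have hxt : x = t := by omega
        subst hi0; subst hxt
        simp [hat', miss_self]
      · intro htn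
        rw [hp]
        have := hH.mono t (t + 1) (by omega) htn
        simp only [List.length_cons, List.length_nil]
        omega
      · rw [hF, hp]
        intro u hu
        have hu' : u = 0 := by simpa using hu
        subst hu'
        refine ⟨φ, ⟨fun x y hxy => hφ.lt x y (nbOld x y hxy),
          fun x y hxy => hφ.symm x y (nbOld x y hxy),
          fun x y z hxy hxz => hφ.inj x y z (nbOld x y hxy) (nbOld x z hxz)⟩, ?_⟩
        intro c hc i hi x hx
        simp only [List.length_cons, List.length_nil] at hi hx
        have hxt : x = t := by omega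
        subst hxt
        constructor
        · intro h1
          simp [msk] at h1
        · rintro ⟨y, hy, _⟩
          exact absurd hy (nbt y)

theorem exists_coloring {tab : List Row} (htab : chkTab D m tab = true) (hH : Hyp D m n a) :
    ∃ φ, Good D a n φ := by
  have key : ∀ t, t ≤ n → ∃ r ∈ tab, Inv D m n a t r := by
    intro t
    induction t with
    | zero =>
      intro _
      have h0 : tab[0]? = some ([], [0], []) := by
        rw [chkTab, Bool.and_eq_true, Bool.and_eq_true, decide_eq_true_eq] at htab
        exact htab.1.1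
      refine ⟨_, List.mem_of_getElem? h0, ?_, ?_, ?_, ?_⟩
      · simp
      · intro i hi; simp at hi
      · intro _; omega
      · intro u _
        refine ⟨fun _ _ => 0, ⟨?_, ?_, ?_⟩, ?_⟩
        · intro x y h; exact absurd h.1 (by omega)
        · intro x y h; exact absurd h.1 (by omega)
        · intro x y z h; exact absurd h.1 (by omega)
        · intro c _ i hi; simp at hi
    | succ t ih =>
      intro ht
      obtain ⟨r, hr, hI⟩ := ih (by omega)
      exact hI.step htab hr hH (by omega)
  obtain ⟨r, hr, hI⟩ := key n le_rfl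
  rw [chkTab, Bool.and_eq_true, List.all_eq_true] at htab
  have hrow := htab.2 r hr
  rw [chkRow, Bool.and_eq_true] at hrow
  obtain ⟨u0, hu0⟩ : ∃ u, u ∈ r.2.1 := by
    cases hF0 : r.2.1 with
    | nil => rw [hF0] at hrow; simp at hrow
    | cons u us => exact ⟨u, List.mem_cons_self⟩
  obtain ⟨φ, hφ, _⟩ := hI.col u0 hu0
  exact ⟨φ, hφ⟩

end step

end Pool.Agent.N446.IG
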