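import Pool.Agent.N446.IG.Core

/-!
From indifference graphs to the left-to-right model.
-/

set_option autoImplicit false
set_option linter.unusedSectionVars false

namespace Pool.Agent.N446.IG

open Finset

section

variable {V : Type} [Fintype V] [DecidableEq V] (G : SimpleGraph V) [DecidableRel G.Adj]

/-- the clique condition of indifference graphs -/
def Cons (f : V → ℕ) : Prop :=
  ∀ S : Finset V, G.IsClique (S : Set V) →
    (∀ T : Finset V, G.IsClique (T : Set V) → S ⊆ T → T = S) →
    ∀ u ∈ S, ∀ w ∈ S, ∀ x : V, f u ≤ f x → f x ≤ f w → x ∈ S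

theorem umbrella {f : V → ℕ} (hc : Cons G f) {u v w : V} (h1 : f u < f v) (h2 : f v < f w)
    (h : G.Adj u w) : G.Adj u v ∧ G.Adj v w := by
  classical
  have hne : ((univ : Finset (Finset V)).filter
      (fun S : Finset V => G.IsClique (S : Set V) ∧ u ∈ S ∧ w ∈ S)).Nonempty := by
    refine ⟨{u, w}, ?_⟩
    rw [mem_filter]
    refine ⟨mem_univ _, ?_, by simp, by simp⟩
    intro x hx y hy hxy
    simp only [coe_insert, coe_singleton, Set.mem_insert_iff, Set.mem_singleton_iff] at hx hy
    rcases hx with rfl | rfl <;> rcases hy with rfl | rfl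
    · exact absurd rfl hxy
    · exact h
    · exact h.symm
    · exact absurd rfl hxy
  obtain ⟨S, hS, hmax⟩ := exists_max_image _ (fun S : Finset V => S.card) hne
  rw [mem_filter] at hS
  obtain ⟨_, hcl, hu, hw⟩ := hS
  have hv : v ∈ S := by
    refine hc S hcl ?_ u hu w hw v h1.le h2.le
    intro T hT hST
    refine (eq_of_subset_of_card_le hST ?_).symm
    exact hmax T (by rw [mem_filter]; exact ⟨mem_univ _, hT, hST hu, hST hw⟩)
  refine ⟨hcl hu hv ?_, hcl hv hw ?_⟩
  · rintro rfl; exact absurd h1 (lt_irrefl _)
  · rintro rfl; exact absurd h2 (lt_irrefl _)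

/-- the rank of a vertex -/
def idx (f : V → ℕ) (v : V) : ℕ := (univ.filter (fun u => f u < f v)).card

theorem idx_lt {f : V → ℕ} (v : V) : idx f v < Fintype.card V := by
  unfold idx
  rw [← card_univ]
  refine card_lt_card ?_
  rw [ssubset_iff_of_subset (subset_univ _)]
  exact ⟨v, mem_univ _, by simp⟩

theorem idx_mono {f : V → ℕ} {u v : V} (h : f u < f v) : idx f u < idx f v := by
  unfold idx
  refine card_lt_card ?_
  rw [ssubset_iff_of_subset]
  · exact ⟨u, by simp [h], by simp⟩
  · intro x hx
    rw [mem_filter] at hx ⊢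
    exact ⟨mem_univ _, hx.2.trans h⟩

theorem idx_inj {f : V → ℕ} (hf : Function.Injective f) : Function.Injective (idx f) := by
  intro u v h
  rcases lt_trichotomy (f u) (f v) with h1 | h1 | h1
  · exact absurd h (idx_mono h1).ne
  · exact hf h1
  · exact absurd h (idx_mono h1).ne'

theorem exists_enum {f : V → ℕ} (hf : Function.Injective f) [Nonempty V] :
    ∃ e : ℕ → V, (∀ v, e (idx f v) = v) ∧ (∀ i < Fintype.card V, idx f (e i) = i) := by
  classical
  have hb : Function.Bijective (fun v : V => (⟨idx f v, idx_lt v⟩ : Fin (Fintype.card V))) := by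
    rw [Fintype.bijective_iff_injective_and_card]
    refine ⟨?_, by simp⟩
    intro u v h
    exact idx_inj hf (Fin.mk.inj_iff.1 h)
  refine ⟨fun i => if h : i < Fintype.card V then (Equiv.ofBijective _ hb).symm ⟨i, h⟩
    else Classical.arbitrary V, ?_, ?_⟩
  · intro v
    have h := idx_lt (f := f) v
    simp only [h, dif_pos]
    exact (Equiv.ofBijective _ hb).symm_apply_apply v
  · intro i hi
    simp only [hi, dif_pos]
    have := (Equiv.ofBijective _ hb).apply_symm_apply ⟨i, hi⟩
    exact congrArg Fin.val this

end

section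

variable {V : Type} [Fintype V] [DecidableEq V] {G : SimpleGraph V} [DecidableRel G.Adj]

theorem main {f : V → ℕ} (hf : Function.Injective f) (hc : Cons G f) [Nonempty V] {D m : ℕ}
    (hDm : m = 0 ∨ D = 2 * m) (hsup : (univ.sup (fun y : V => (univ.filter (fun z : V => G.Adj y z)).card)) = D)
    (hcol : ∀ (n : ℕ) (a : ℕ → ℕ), Hyp D m n a → ∃ φ, Good D a n φ)
    (hno : ¬ ∃ v : V,
        (∃ x : V, (x = v ∨ G.Adj v x) ∧
          ((univ.filter (fun y : V => y = v ∨ G.Adj v y)).filter
              (fun z : V => G.Adj x z)).card = D) ∧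
        (∑ x ∈ univ.filter (fun y : V => y = v ∨ G.Adj v y),
            ((univ.filter (fun y : V => y = v ∨ G.Adj v y)).filter
              (fun z : V => G.Adj x z)).card)
          > 2 * D * ((univ.filter (fun y : V => y = v ∨ G.Adj v y)).card / 2)) :
    ∃ c : V → V → ℕ,
          (∀ u v : V, G.Adj u v → c u v = c v u) ∧
          (∀ u v : V, G.Adj u v → c u v < D) ∧
          (∀ u v w : V, G.Adj u v → G.Adj u w → v ≠ w → c u v ≠ c u w) := by
  classical
  obtain ⟨e, he1, he2⟩ := exists_enum hf
  set n := Fintype.card V with hn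
  have hord : ∀ i j, i < j → j < n → f (e i) < f (e j) := by
    intro i j hij hj
    rcases lt_trichotomy (f (e i)) (f (e j)) with h | h | h
    · exact h
    · have h1 := he2 i (by omega)
      have h2 := he2 j hj
      rw [hf h] at h1
      omega
    · have h1 := idx_mono h
      rw [he2 i (by omega), he2 j hj] at h1
      omega
  have hinj : ∀ i < n, ∀ j < n, e i = e j → i = j := by
    intro i hi j hj h
    rw [← he2 i hi, ← he2 j hj, h]
  have hex : ∀ j : ℕ, ∃ i, i = j ∨ (i < j ∧ G.Adj (e i) (e j)) := fun j => ⟨j, Or.inl rfl⟩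
  obtain ⟨a, ha⟩ : ∃ a : ℕ → ℕ, ∀ j, a j = Nat.find (hex j) := ⟨_, fun _ => rfl⟩
  have ale : ∀ j, a j ≤ j := fun j => by rw [ha]; exact Nat.find_min' _ (Or.inl rfl)
  have aspec : ∀ j, a j < j → G.Adj (e (a j)) (e j) := by
    intro j hj
    have h := Nat.find_spec (hex j)
    rw [← ha] at h
    rcases h with h | h
    · omega
    · exact h.2
  have adj1 : ∀ i j, i < j → G.Adj (e i) (e j) → a j ≤ i := by
    intro i j hij h
    rw [ha]
    exact Nat.find_min' _ (Or.inr ⟨hij, h⟩)
  have adj2 : ∀ i j, i < j → j < n → a j ≤ i → G.Adj (e i) (e j) := by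
    intro i j hij hj h
    have h1 := aspec j (by omega)
    rcases Nat.eq_or_lt_of_le h with h2 | h2
    · rw [h2] at h1; exact h1
    · exact (umbrella G hc (hord _ _ h2 (by omega)) (hord _ _ hij hj) h1).2
  have amono : ∀ s t, s ≤ t → t < n → a s ≤ a t := by
    intro s t hst ht
    rcases Nat.eq_or_lt_of_le hst with rfl | hst
    · exact le_rfl
    · by_contra hcon
      have h0 := ale s
      have h1 := aspec t (by omega)
      have h2 := (umbrella G hc (hord (a t) s (by omega) (by omega)) (hord s t hst ht) h1).1
      have := adj1 (a t) s (by omega) h2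
      omega
  have adjW : ∀ x t, x ≤ t → t < n → a t ≤ x → ∀ y ∈ Icc (a x) t, y ≠ x →
      G.Adj (e x) (e y) := by
    intro x t hxt ht hat y hy hyx
    rw [mem_Icc] at hy
    rcases lt_or_gt_of_ne hyx with h | h
    · exact (adj2 y x h (by omega) hy.1).symm
    · exact adj2 x y h (by omega) ((amono y t hy.2 ht).trans hat)
  have hinjW : ∀ x t, t < n → Set.InjOn e (Icc (a x) t : Finset ℕ) := by
    intro x t ht i hi j hj h
    rw [coe_Icc, Set.mem_Icc] at hi hj
    exact hinj i (by omega) j (by omega) h
  have hdegle : ∀ v : V, (univ.filter (fun z : V => G.Adj v z)).card ≤ D := by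
    intro v
    rw [← hsup]
    exact le_sup (f := fun y : V => (univ.filter (fun z : V => G.Adj y z)).card) (mem_univ v)
  have hdeg : ∀ x t, x ≤ t → t < n → a t ≤ x →
      t - a x ≤ (univ.filter (fun z : V => G.Adj (e x) z)).card := by
    intro x t hxt ht hat
    have h1 : (((Icc (a x) t).erase x).image e).card = t - a x := by
      rw [card_image_of_injOn, card_erase_of_mem, Nat.card_Icc]
      · omega
      · rw [mem_Icc]; exact ⟨ale x, hxt⟩
      · exact (hinjW x t ht).mono (by rw [coe_subset]; exact erase_subset _ _)
    rw [← h1]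
    refine card_le_card ?_
    intro z hz
    obtain ⟨y, hy, rfl⟩ := mem_image.1 hz
    rw [mem_erase] at hy
    rw [mem_filter]
    exact ⟨mem_univ _, adjW x t hxt ht hat y hy.2 hy.1⟩
  have hH : Hyp D m n a := by
    refine ⟨ale, amono, ?_, ?_⟩
    · intro x t hxt ht hat
      exact (hdeg x t hxt ht hat).trans (hdegle _)
    · intro x t hxt ht hat hD
      by_contra hmiss
      have hDm : D = 2 * m := by
        rcases hDm with h | h
        · omega
        · exact h
      refine hno ⟨e x, ?_, ?_⟩
      · refine ⟨e x, Or.inl rfl, ?_⟩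
        have h1 : (univ.filter (fun y : V => y = e x ∨ G.Adj (e x) y)).filter
            (fun z : V => G.Adj (e x) z) = univ.filter (fun z : V => G.Adj (e x) z) := by
          ext z
          simp only [mem_filter, mem_univ, true_and]
          tauto
        rw [h1]
        refine le_antisymm (hdegle _) ?_
        have := hdeg x t hxt ht hat
        omega
      · -- the closed neighbourhood is a window
        have hN : univ.filter (fun y : V => y = e x ∨ G.Adj (e x) y) = (Icc (a x) t).image e := by
          symm
          refine eq_of_subset_of_card_le ?_ ?_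
          · intro z hz
            obtain ⟨y, hy, rfl⟩ := mem_image.1 hz
            rw [mem_filter]
            refine ⟨mem_univ _, ?_⟩
            by_cases hyx : y = x
            · left; rw [hyx]
            · right; exact adjW x t hxt ht hat y hy hyx
          · rw [card_image_of_injOn (hinjW x t ht), Nat.card_Icc]
            have h1 : univ.filter (fun y : V => y = e x ∨ G.Adj (e x) y) ⊆
                insert (e x) (univ.filter (fun z : V => G.Adj (e x) z)) := by
              intro z hz
              simp only [mem_filter, mem_univ, true_and, mem_insert] at hz ⊢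
              exact hz
            refine (card_le_card h1).trans ((card_insert_le _ _).trans ?_)
            have := hdegle (e x)
            have := ale x
            omega
        rw [hN, card_image_of_injOn (hinjW x t ht), Nat.card_Icc,
          sum_image (fun i hi j hj h => hinjW x t ht hi hj h)]
        have hax := ale x
        have hcard : (t + 1 - a x) / 2 = m := by omega
        rw [hcard]
        -- count the adjacent pairs
        have hf1 : ∀ y ∈ Icc (a x) t, (((Icc (a x) t).image e).filter
            (fun z : V => G.Adj (e y) z)).card =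
            ((Icc (a x) t).filter (fun z => z < y ∧ G.Adj (e y) (e z))).card +
            ((Icc (a x) t).filter (fun z => y < z ∧ G.Adj (e y) (e z))).card := by
          intro y _
          rw [filter_image, card_image_of_injOn ((hinjW x t ht).mono (by
            rw [coe_subset]; exact filter_subset _ _)), ← card_union_of_disjoint]
          · congr 1
            ext z
            simp only [mem_filter, mem_union]
            constructor
            · rintro ⟨hz, hadj⟩
              have hne : z ≠ y := by rintro rfl; exact G.loopless.irrefl _ hadj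
              rcases lt_or_gt_of_ne hne with h | h
              · exact Or.inl ⟨hz, h, hadj⟩
              · exact Or.inr ⟨hz, h, hadj⟩
            · rintro (⟨hz, _, hadj⟩ | ⟨hz, _, hadj⟩)
              · exact ⟨hz, hadj⟩
              · exact ⟨hz, hadj⟩
          · rw [disjoint_left]
            intro z hz hz'
            rw [mem_filter] at hz hz'
            omega
        rw [sum_congr rfl hf1, sum_add_distrib]
        have hswap : ∑ y ∈ Icc (a x) t,
            ((Icc (a x) t).filter (fun z => y < z ∧ G.Adj (e y) (e z))).card =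
            ∑ y ∈ Icc (a x) t,
            ((Icc (a x) t).filter (fun z => z < y ∧ G.Adj (e y) (e z))).card := by
          have := sum_card_bipartiteAbove_eq_sum_card_bipartiteBelow (s := Icc (a x) t)
            (t := Icc (a x) t) (fun y z : ℕ => y < z ∧ G.Adj (e y) (e z))
          unfold bipartiteAbove bipartiteBelow at this
          rw [this]
          refine sum_congr rfl fun y _ => ?_
          congr 1
          ext z
          simp only [mem_filter]
          constructor
          · rintro ⟨h1, h2, h3⟩; exact ⟨h1, h2, h3.symm⟩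
          · rintro ⟨h1, h2, h3⟩; exact ⟨h1, h2, h3.symm⟩
        rw [hswap]
        have hlow : ∑ y ∈ Icc (a x) t, (y - max (a y) (a x)) ≤ ∑ y ∈ Icc (a x) t,
            ((Icc (a x) t).filter (fun z => z < y ∧ G.Adj (e y) (e z))).card := by
          refine sum_le_sum fun y hy => ?_
          rw [mem_Icc] at hy
          have h1 : Ico (max (a y) (a x)) y ⊆
              (Icc (a x) t).filter (fun z => z < y ∧ G.Adj (e y) (e z)) := by
            intro z hz
            rw [mem_Ico, max_le_iff] at hz
            rw [mem_filter, mem_Icc]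
            exact ⟨⟨hz.1.2, by omega⟩, hz.2, (adj2 z y hz.2 (by omega) hz.1.1).symm⟩
          have h2 := card_le_card h1
          rwa [Nat.card_Ico] at h2
        have hsum1 : ∑ y ∈ Icc (a x) t, (y - max (a y) (a x)) + ∑ y ∈ Icc (a x) t, (a y - a x)
            = ∑ y ∈ Icc (a x) t, (y - a x) := by
          rw [← sum_add_distrib]
          refine sum_congr rfl fun y hy => ?_
          rw [mem_Icc] at hy
          have := ale y
          rcases le_total (a y) (a x) with h | h
          · rw [max_eq_right h]; omega
          · rw [max_eq_left h]; omega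
        have hmissEq : ∑ y ∈ Icc (a x) t, (a y - a x) = miss a x t := by
          unfold miss
          symm
          refine sum_subset ?_ ?_
          · intro y hy
            rw [mem_Ioc] at hy
            rw [mem_Icc]
            omega
          · intro y hy hy'
            rw [mem_Icc] at hy
            rw [mem_Ioc] at hy'
            have : a y ≤ a x := amono y x (by omega) (by omega)
            omega
        have hgauss : (∑ y ∈ Icc (a x) t, (y - a x)) * 2 = (D + 1) * D := by
          have h1 : Icc (a x) t = Ico (a x) (t + 1) := by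
            ext y; rw [mem_Icc, mem_Ico]; omega
          rw [h1, sum_Ico_eq_sum_range]
          have h2 : t + 1 - a x = D + 1 := by omega
          rw [h2]
          have h3 := sum_range_id_mul_two (D + 1)
          rw [Nat.add_sub_cancel] at h3
          rw [← h3]
          congr 1
          refine sum_congr rfl fun i _ => ?_
          omega
        have hmm : miss a x t < m := by omega
        rw [hmissEq] at hsum1
        have e1 : 2 * D * m = D * D := by rw [hDm]; ring
        have e2 : (D + 1) * D = D * D + D := by ring
        rw [e1]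
        omega
  obtain ⟨φ, hφ⟩ := hcol n a hH
  have hNb : ∀ u v : V, G.Adj u v → Nb a n (idx f u) (idx f v) := by
    intro u v huv
    refine ⟨idx_lt u, idx_lt v, ?_⟩
    have hne : idx f u ≠ idx f v := fun h => G.ne_of_adj huv (idx_inj hf h)
    rcases lt_or_gt_of_ne hne with h | h
    · left
      exact ⟨h, adj1 _ _ h (by rw [he1, he1]; exact huv)⟩
    · right
      exact ⟨h, adj1 _ _ h (by rw [he1, he1]; exact huv.symm)⟩
  refine ⟨fun u v => φ (idx f u) (idx f v), ?_, ?_, ?_⟩
  · intro u v huv
    exact hφ.symm _ _ (hNb u v huv)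
  · intro u v huv
    exact hφ.lt _ _ (hNb u v huv)
  · intro u v w huv huw hvw
    exact hφ.inj _ _ _ (hNb u v huv) (hNb u w huw) (fun h => hvw (idx_inj hf h))

end

/-- the colour of a pair of vertices of the complete graph on `0, ..., D`, `D` odd -/
def kcol (D x y : ℕ) : ℕ := if x = D then (2 * y) % D else if y = D then (2 * x) % D else (x + y) % D

theorem kcol_symm (D x y : ℕ) : kcol D x y = kcol D y x := by
  unfold kcol
  split_ifs with h1 h2 h2
  · rw [h1, h2]
  · rfl
  · rfl
  · rw [Nat.add_comm]

theorem eq_of_mod {D x y : ℕ} (hx : x < D) (hy : y < D) (h : x ≡ y [MOD D]) : x = y := by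
  have := h
  unfold Nat.ModEq at this
  rwa [Nat.mod_eq_of_lt hx, Nat.mod_eq_of_lt hy] at this

theorem kcol_inj {D x y z : ℕ} (hodd : D % 2 = 1) (hx : x ≤ D) (hy : y ≤ D) (hz : z ≤ D)
    (hxy : x ≠ y) (hxz : x ≠ z) (hyz : y ≠ z) : kcol D x y ≠ kcol D x z := by
  intro h
  unfold kcol at h
  have hcop : Nat.gcd D 2 = 1 := by
    have : Nat.Coprime 2 D := by
      rw [Nat.coprime_two_left]
      exact Nat.odd_iff.2 hodd
    exact this.symm
  by_cases h1 : x = D
  · rw [if_pos h1, if_pos h1] at h
    have h2 : y ≡ z [MOD D] := Nat.ModEq.cancel_left_of_coprime hcop h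
    exact hyz (eq_of_mod (by omega) (by omega) h2)
  · rw [if_neg h1, if_neg h1] at h
    by_cases h2 : y = D
    · rw [if_pos h2, if_neg (by omega)] at h
      have h3 : x + x ≡ x + z [MOD D] := by rw [← two_mul]; exact h
      exact hxz (eq_of_mod (by omega) (by omega) (Nat.ModEq.add_left_cancel' x h3))
    · rw [if_neg h2] at h
      by_cases h4 : z = D
      · rw [if_pos h4] at h
        have h3 : x + y ≡ x + x [MOD D] := by rw [← two_mul]; exact h
        exact hxy (eq_of_mod (by omega) (by omega) (Nat.ModEq.add_left_cancel' x h3)).symm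
      · rw [if_neg h4] at h
        have h3 : x + y ≡ x + z [MOD D] := h
        exact hyz (eq_of_mod (by omega) (by omega) (Nat.ModEq.add_left_cancel' x h3))

/-- odd maximum degree (known): always `D` colours suffice -/
theorem odd_coloring {D : ℕ} (hodd : D % 2 = 1) (n : ℕ) (a : ℕ → ℕ) (hH : Hyp D 0 n a) :
    ∃ φ, Good D a n φ := by
  have hD : 0 < D := by omega
  have hwin : ∀ x y, Nb a n x y → a x ≤ y ∧ y ≤ a x + D := by
    intro x y h
    rcases h.2.2 with ⟨h1, h2⟩ | ⟨h1, h2⟩
    · have h3 := hH.deg x y h1.le h.2.1 h2
      have h4 := hH.le x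
      omega
    · have h3 := hH.deg x x le_rfl h.1 (hH.le x)
      omega
  have hmodne : ∀ x y c, c ≤ x → x ≤ c + D → c ≤ y → y ≤ c + D → x ≠ y →
      x % (D + 1) ≠ y % (D + 1) := by
    intro x y c h1 h2 h3 h4 hne h
    rcases lt_or_gt_of_ne hne with h5 | h5
    · have h6 : x ≡ y [MOD (D + 1)] := h
      have h7 := (Nat.modEq_iff_dvd' h5.le).1 h6
      exact absurd (Nat.le_of_dvd (by omega) h7) (by omega)
    · have h6 : y ≡ x [MOD (D + 1)] := h.symm
      have h7 := (Nat.modEq_iff_dvd' h5.le).1 h6
      exact absurd (Nat.le_of_dvd (by omega) h7) (by omega)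
  refine ⟨fun x y => kcol D (x % (D + 1)) (y % (D + 1)), ⟨?_, ?_, ?_⟩⟩
  · intro x y _
    simp only [kcol]
    split_ifs <;> exact Nat.mod_lt _ hD
  · intro x y _
    exact kcol_symm _ _ _
  · intro x y z hxy hxz hyz
    have h1 := hwin x y hxy
    have h2 := hwin x z hxz
    have h3 : a x ≤ x := hH.le x
    have h4 : x ≤ a x + D := by
      have := hH.deg x x le_rfl hxy.1 (hH.le x)
      omega
    have l1 := Nat.mod_lt x (show 0 < D + 1 by omega)
    have l2 := Nat.mod_lt y (show 0 < D + 1 by omega)
    have l3 := Nat.mod_lt z (show 0 < D + 1 by omega)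
    exact kcol_inj hodd (by omega) (by omega) (by omega)
      (hmodne x y (a x) h3 h4 h1.1 h1.2 hxy.ne)
      (hmodne x z (a x) h3 h4 h2.1 h2.2 hxz.ne)
      (hmodne y z (a x) h1.1 h1.2 h2.1 h2.2 hyz)

end Pool.Agent.N446.IG
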