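import Pool.Agent.N446.IG.Core

set_option autoImplicit false
set_option maxRecDepth 100000

namespace Pool.Agent.N446.IG

def tab2_0 : List Row :=
  [
    ([],[0],[]),
    ([(0,0)],[0],[(2,0,[16781329])]),
    ([(1,0),(1,0)],[768],[(3,1,[16781329]),(0,0,[])]),
    ([(1,0)],[256],[(3,1,[16781329])])
  ]

/-- the table for maximum degree 2 -/
def tab2 : List Row :=
  tab2_0

theorem chk2 : chkTab 2 1 tab2 = true := by decide +kernel

end Pool.Agent.N446.IG
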