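import Pool.Agent.N446.IG.Core

set_option autoImplicit false
set_option maxRecDepth 100000

namespace Pool.Agent.N446.IG

def tab4_0 : List Row :=
  [
    ([],[0],[]),
    ([(0,0)],[0],[(2,0,[81064874897190961])]),
    ([(1,0),(1,0)],[50331648],[(3,0,[81064874897190961]),(4,0,[148901363000221730])]),
    ([(2,1),(1,0)],[50397184],[(3,0,[81064874897190961]),(5,0,[148901363000221730])]),
    ([(2,0),(2,0),(2,0)],[100991744],[(6,0,[81064874897190961]),(7,0,[148901363000221730,77126549337485345]),(8,0,[144716832213831699])]),
    ([(3,2),(2,0),(2,0)],[100991745],[(6,0,[81064874897190961]),(7,0,[148901363000221730,77126549337485345]),(9,1,[86451305356210194])]),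
    ([(3,2),(1,0)],[50397440],[(3,0,[81064874897190961]),(10,1,[148901363000221730])]),
    ([(3,1),(3,1),(2,0)],[117768962,117834497],[(6,0,[81064874897190961]),(11,1,[18595645436709773346,77126549337485345]),(12,2,[144716832213831699])]),
    ([(3,0),(3,0),(3,0),(3,0)],[252643590],[(13,1,[81064874897190961]),(14,2,[76844868205490210]),(0,0,[]),(0,0,[])]),
    ([(3,0),(3,0),(3,0)],[117900546],[(13,1,[81064874897190961]),(14,2,[76844868205490210]),(0,0,[])]),
    ([(2,0),(2,0)],[50462976],[(6,0,[81064874897190961]),(7,0,[148901363000221730,77126549337485345])]),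
    ([(3,1),(2,0)],[50462977,50528512],[(6,0,[81064874897190961]),(11,1,[18595645436709773346,77126549337485345])]),
    ([(3,0),(3,0)],[50528769],[(13,1,[81064874897190961]),(14,2,[76844868205490210])]),
    ([(1,0)],[16777216],[(3,0,[81064874897190961])]),
    ([(2,0)],[16842752],[(6,0,[81064874897190961])])
  ]

/-- the table for maximum degree 4 -/
def tab4 : List Row :=
  tab4_0

theorem chk4 : chkTab 4 2 tab4 = true := by decide +kernel

end Pool.Agent.N446.IG
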